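import Pool.Agent.Helper30.Full.GoalsL
import Pool.Agent.Helper90.ProP2.Rel

/-!
# Decidability passes to quotients by definable normal subgroups
-/

set_option autoImplicit false

namespace Pool.Agent.Helper36.QD

open Function Pool.Agent.Helper85.ProP Pool.Agent.Helper90.ProP2

/-! ### the translation -/

/-- the translation of `s = t` -/
def eqv (θ : Fm) (s t : Tm) : Fm :=
  Fm.all 0 (Fm.neg (Fm.and (Fm.eq (Tm.var 0) (Tm.mul (sh s) (Tm.inv (sh t)))) (Fm.neg θ)))

/-- the translation, with all variables shifted by one -/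
def tr (θ : Fm) : Fm → Fm
  | Fm.eq s t => eqv θ s t
  | Fm.neg φ => Fm.neg (tr θ φ)
  | Fm.and φ ψ => Fm.and (tr θ φ) (tr θ ψ)
  | Fm.all n φ => Fm.all (n + 1) (tr θ φ)

/-- the code of `eqv` -/
def cE (c a b : ℕ) : ℕ :=
  Nat.pair 3 (Nat.pair 0 (Nat.pair 1 (Nat.pair 2 (Nat.pair
    (Nat.pair 0 (Nat.pair (Nat.pair 1 0) (Nat.pair 2 (Nat.pair a (Nat.pair 3 b)))))
    (Nat.pair 1 c)))))

lemma eqv_code (θ : Fm) (s t : Tm) : (eqv θ s t).code = cE θ.code (sh s).code (sh t).code := rfl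

/-- one step of the recursion for formulas -/
def gQ (c : ℕ) (l : List ℕ) : ℕ :=
  if l.length.unpair.1 = 0 then
    cE c (ST l.length.unpair.2.unpair.1) (ST l.length.unpair.2.unpair.2)
  else if l.length.unpair.1 = 1 then Nat.pair 1 (l.getD l.length.unpair.2 0)
  else if l.length.unpair.1 = 2 then
    Nat.pair 2 (Nat.pair (l.getD l.length.unpair.2.unpair.1 0)
      (l.getD l.length.unpair.2.unpair.2 0))
  else Nat.pair 3 (Nat.pair (l.length.unpair.2.unpair.1 + 1)
      (l.getD l.length.unpair.2.unpair.2 0))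

/-- the function on codes of formulas -/
def SQ (c n : ℕ) : ℕ := gQ c (cov (gQ c) n)

lemma gQ_primrec (c : ℕ) : Primrec (gQ c) := by
  have hl : Primrec (fun l : List ℕ => l.length) := Primrec.list_length
  have h1 : Primrec (fun l : List ℕ => l.length.unpair.1) :=
    Primrec.fst.comp (Primrec.unpair.comp hl)
  have h2 : Primrec (fun l : List ℕ => l.length.unpair.2) :=
    Primrec.snd.comp (Primrec.unpair.comp hl)
  have h21 : Primrec (fun l : List ℕ => l.length.unpair.2.unpair.1) :=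
    Primrec.fst.comp (Primrec.unpair.comp h2)
  have h22 : Primrec (fun l : List ℕ => l.length.unpair.2.unpair.2) :=
    Primrec.snd.comp (Primrec.unpair.comp h2)
  have hg : ∀ {f : List ℕ → ℕ}, Primrec f → Primrec (fun l : List ℕ => l.getD (f l) 0) :=
    fun hf => (Primrec.list_getD 0).comp Primrec.id hf
  have P : ∀ {a b : List ℕ → ℕ}, Primrec a → Primrec b →
      Primrec (fun l : List ℕ => Nat.pair (a l) (b l)) :=
    fun ha hb => Primrec₂.natPair.comp ha hb
  have C : ∀ m : ℕ, Primrec (fun _ : List ℕ => m) := fun m => Primrec.const m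
  have S21 : Primrec (fun l : List ℕ => l.length.unpair.2.unpair.1 + 1) :=
    Primrec.succ.comp h21
  refine Primrec.ite (Primrec.eq.comp h1 (Primrec.const 0)) ?_ ?_
  · exact P (C 3) (P (C 0) (P (C 1) (P (C 2) (P
      (P (C 0) (P (P (C 1) (C 0)) (P (C 2) (P (ST_primrec.comp h21)
        (P (C 3) (ST_primrec.comp h22))))))
      (P (C 1) (C c))))))
  refine Primrec.ite (Primrec.eq.comp h1 (Primrec.const 1)) (P (C 1) (hg h2)) ?_
  refine Primrec.ite (Primrec.eq.comp h1 (Primrec.const 2))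
    (P (C 2) (P (hg h21) (hg h22))) ?_
  exact P (C 3) (P S21 (hg h22))

lemma SQ_primrec (c : ℕ) : Primrec (SQ c) := (gQ_primrec c).comp (cov_primrec (gQ_primrec c))

lemma SQ_code (θ φ : Fm) : SQ θ.code φ.code = (tr θ φ).code := by
  induction φ with
  | eq s t =>
    show gQ θ.code (cov (gQ θ.code) (Nat.pair 0 (Nat.pair s.code t.code))) = _
    rw [gQ, cov_length, Nat.unpair_pair]
    simp [ST_code, tr, eqv_code]
  | neg φ ih =>
    show gQ θ.code (cov (gQ θ.code) (Nat.pair 1 φ.code)) = _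
    have e1 : φ.code < Nat.pair 1 φ.code := lt_pair (by norm_num)
    rw [gQ, cov_length, Nat.unpair_pair]
    simp only
    rw [cov_getD _ e1]
    rw [show gQ θ.code (cov (gQ θ.code) φ.code) = _ from ih]
    simp [tr, Fm.code]
  | and φ ψ ih1 ih2 =>
    show gQ θ.code (cov (gQ θ.code) (Nat.pair 2 (Nat.pair φ.code ψ.code))) = _
    have e1 : φ.code < Nat.pair 2 (Nat.pair φ.code ψ.code) :=
      lt_of_le_of_lt (Nat.left_le_pair _ _) (lt_pair (by norm_num))
    have e2 : ψ.code < Nat.pair 2 (Nat.pair φ.code ψ.code) :=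
      lt_of_le_of_lt (Nat.right_le_pair _ _) (lt_pair (by norm_num))
    rw [gQ, cov_length, Nat.unpair_pair]
    simp only [Nat.unpair_pair]
    rw [cov_getD _ e1, cov_getD _ e2]
    rw [show gQ θ.code (cov (gQ θ.code) φ.code) = _ from ih1,
      show gQ θ.code (cov (gQ θ.code) ψ.code) = _ from ih2]
    simp [tr, Fm.code]
  | all n φ ih =>
    show gQ θ.code (cov (gQ θ.code) (Nat.pair 3 (Nat.pair n φ.code))) = _
    have e2 : φ.code < Nat.pair 3 (Nat.pair n φ.code) :=
      lt_of_le_of_lt (Nat.right_le_pair _ _) (lt_pair (by norm_num))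
    rw [gQ, cov_length, Nat.unpair_pair]
    simp only [Nat.unpair_pair]
    rw [cov_getD _ e2]
    rw [show gQ θ.code (cov (gQ θ.code) φ.code) = _ from ih]
    simp [tr, Fm.code]

lemma tr_fv (θ : Fm) (hθ : ∀ i ∈ θ.fv, i < 1) (φ : Fm) :
    ∀ i ∈ (tr θ φ).fv, ∃ j ∈ φ.fv, i = j + 1 := by
  induction φ with
  | eq s t =>
    intro i hi
    simp only [tr, eqv, Fm.fv, Tm.vars, Finset.mem_erase, Finset.mem_union,
      Finset.mem_singleton] at hi ⊢
    obtain ⟨h0, (hi | (hi | hi)) | hi⟩ := hi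
    · exact absurd hi h0
    · obtain ⟨j, hj, e⟩ := sh_vars s i hi
      exact ⟨j, Or.inl hj, e⟩
    · obtain ⟨j, hj, e⟩ := sh_vars t i hi
      exact ⟨j, Or.inr hj, e⟩
    · have := hθ i hi
      omega
  | neg φ ih => simpa [tr, Fm.fv] using ih
  | and φ ψ ih1 ih2 =>
    intro i hi
    simp only [tr, Fm.fv, Finset.mem_union] at hi ⊢
    rcases hi with hi | hi
    · obtain ⟨j, hj, e⟩ := ih1 i hi
      exact ⟨j, Or.inl hj, e⟩
    · obtain ⟨j, hj, e⟩ := ih2 i hi
      exact ⟨j, Or.inr hj, e⟩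
  | all n φ ih =>
    intro i hi
    simp only [tr, Fm.fv, Finset.mem_erase] at hi ⊢
    obtain ⟨h1, h2⟩ := hi
    obtain ⟨j, hj, e⟩ := ih i h2
    exact ⟨j, ⟨by omega, hj⟩, e⟩

section

variable {G : Type*} [Group G] (N : Subgroup G) [N.Normal]

lemma sh_evalQ (t : Tm) (v : ℕ → G ⧸ N) (v' : ℕ → G)
    (h : ∀ i, ((v' (i + 1) : G) : G ⧸ N) = v i) :
    (((sh t).eval v' : G) : G ⧸ N) = t.eval v := by
  induction t with
  | one => rfl
  | var n => exact h n
  | mul s t ihs iht =>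
    show ((((sh s).eval v' * (sh t).eval v' : G)) : G ⧸ N) = s.eval v * t.eval v
    rw [QuotientGroup.mk_mul, ihs, iht]
  | inv s ih =>
    show ((((sh s).eval v')⁻¹ : G) : G ⧸ N) = (s.eval v)⁻¹
    rw [QuotientGroup.mk_inv, ih]

lemma sh_eval_upd (t : Tm) (v : ℕ → G) (a : G) : (sh t).eval (update v 0 a) = (sh t).eval v := by
  refine Tm.eval_congr _ _ _ fun i hi => ?_
  obtain ⟨j, -, e⟩ := sh_vars t i hi
  exact update_of_ne (by omega) _ _

lemma eqv_sat (θ : Fm) (hθ : ∀ v : ℕ → G, θ.Sat v ↔ v 0 ∈ N) (s t : Tm) (v : ℕ → G) :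
    (eqv θ s t).Sat v ↔ (sh s).eval v * ((sh t).eval v)⁻¹ ∈ N := by
  simp only [eqv, Fm.Sat, Tm.eval, hθ, update_self, sh_eval_upd]
  constructor
  · intro h
    by_contra hc
    exact h _ ⟨rfl, hc⟩
  · rintro h a ⟨h1, h2⟩
    exact h2 (h1 ▸ h)

lemma tr_sat (θ : Fm) (hθ : ∀ v : ℕ → G, θ.Sat v ↔ v 0 ∈ N) (φ : Fm) (v : ℕ → G ⧸ N)
    (v' : ℕ → G) (h : ∀ i, ((v' (i + 1) : G) : G ⧸ N) = v i) : (tr θ φ).Sat v' ↔ φ.Sat v := by
  induction φ generalizing v v' with
  | eq s t =>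
    show (eqv θ s t).Sat v' ↔ s.eval v = t.eval v
    rw [eqv_sat N θ hθ, ← sh_evalQ N s v v' h, ← sh_evalQ N t v v' h]
    have h1 := QuotientGroup.eq_iff_div_mem (N := N) (x := (sh s).eval v') (y := (sh t).eval v')
    rw [div_eq_mul_inv] at h1
    exact h1.symm
  | neg φ ih =>
    simp only [tr, Fm.Sat]
    rw [ih v v' h]
  | and φ ψ ih1 ih2 =>
    simp only [tr, Fm.Sat]
    rw [ih1 v v' h, ih2 v v' h]
  | all n φ ih =>
    have key : ∀ b : G, (tr θ φ).Sat (update v' (n + 1) b) ↔ φ.Sat (update v n (b : G ⧸ N)) := by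
      intro b
      refine ih _ _ fun i => ?_
      by_cases hi : i = n
      · subst hi; simp
      · rw [update_of_ne (by omega), update_of_ne hi, h]
    simp only [tr, Fm.Sat]
    constructor
    · intro H b
      obtain ⟨c, rfl⟩ := QuotientGroup.mk_surjective b
      exact (key c).mp (H c)
    · intro H a
      exact (key a).mpr (H _)

end

/-- packet QD: quotients by definable normal subgroups inherit decidability -/
theorem stmtQD : Pool.Agent.Helper30.Full.StmtQD := by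
  intro G _ N _ hN ⟨f, hf, hf'⟩
  obtain ⟨θ, h1, h2⟩ := hN.df 1 (Nat.zero_le 1) (fun v => v 0) (TF.last 0)
  refine ⟨fun n => f (SQ θ.code n), hf.comp (SQ_primrec θ.code).to_comp, ?_⟩
  intro φ hφ
  have hs : (tr θ φ).fv = ∅ := by
    rw [Finset.eq_empty_iff_forall_notMem]
    intro i hi
    obtain ⟨j, hj, -⟩ := tr_fv θ h1 φ i hi
    rw [hφ] at hj
    simp at hj
  have h3 := hf' (tr θ φ) hs
  rw [← SQ_code] at h3
  rw [h3]
  constructor
  · intro H v
    refine (tr_sat N θ h2 φ v (fun i => (v (i - 1)).out) (fun i => ?_)).mp (H _)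
    simp
  · intro H v'
    exact (tr_sat N θ h2 φ (fun i => ((v' (i + 1) : G) : G ⧸ N)) v' (fun i => rfl)).mpr (H _)

end Pool.Agent.Helper36.QD
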